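import Pool.Agent.T9h72.FM.Dyn

/-!
# Uniform bound for fields of definition over fields of moduli

For every `N` the numbers `FOM/FOD(N, d)`, `d ≥ 2`, are bounded, explicitly by
`(N + 1) ^ (3 * (N + 1) ^ 2)`. The same holds over every base field of characteristic zero.
-/

namespace Pool.Agent.Results.MP_db5b97_nt.UniformBound

open Pool.T9h72.FM

theorem bound_aux (k Ω : Type*) [Field k] [CharZero k] [Field Ω] [Algebra k Ω] [IsAlgClosed Ω]
    [CharZero Ω] [Algebra.IsAlgebraic k Ω] (N : ℕ) :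
    (⨆ (d : ℕ) (_ : 2 ≤ d), FOMFOD k Ω N d) ≤
      (((N + 1) ^ (3 * (N + 1) ^ 2) : ℕ) : ℕ∞) := by
  refine iSup₂_le fun d hd => ?_
  refine iSup_le fun f => ?_
  obtain ⟨L, hL, -, hle⟩ := main_dyn (k := k) hd (F := f.poly) ⟨f.homog, f.no_zero⟩
  refine iInf₂_le_of_le L hL ?_
  rw [Cardinal.toENat_le_natCast]
  refine hle.trans (le_of_eq ?_)
  rw [Fintype.card_fin, ← pow_mul, ← pow_mul]
  congr 2
  ring

theorem isAlgebraic_rat : Algebra.IsAlgebraic ℚ (AlgebraicClosure ℚ) := by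
  have h : (AlgebraicClosure.instAlgebra ℚ : Algebra ℚ (AlgebraicClosure ℚ)) =
      DivisionRing.toRatAlgebra := Subsingleton.elim _ _
  have h2 : @Algebra.IsAlgebraic ℚ (AlgebraicClosure ℚ) _ _ (AlgebraicClosure.instAlgebra ℚ) :=
    AlgebraicClosure.isAlgebraic ℚ
  rw [h] at h2
  exact h2

/-- For every `N ≥ 1` one has `sup_{d ≥ 2} FOM/FOD(N, d) < ∞` (affirmative answer to Q1); in fact,
over every base field `k` of characteristic zero (in particular for `k = ℚ`) and for every `N`,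
`sup_{d ≥ 2} FOM/FOD(N, d) ≤ (N + 1) ^ (3 (N + 1) ^ 2)`. The last part records that every field of
definition contains the field of moduli, so that `relrank` in the definition of `FOMFOD` is the
degree `[L : K_f]`. -/
theorem result :
    (∀ N : ℕ, 1 ≤ N →
      (⨆ (d : ℕ) (_ : 2 ≤ d), FOMFOD ℚ (AlgebraicClosure ℚ) N d) < ⊤) ∧
    (∀ (k : Type) [Field k] [CharZero k] (N : ℕ),
      (⨆ (d : ℕ) (_ : 2 ≤ d), FOMFOD k (AlgebraicClosure k) N d) ≤
        (((N + 1) ^ (3 * (N + 1) ^ 2) : ℕ) : ℕ∞)) ∧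
    ∀ (k : Type) [Field k] [CharZero k] (N d : ℕ) (f : EndPN (AlgebraicClosure k) N d)
      (L : IntermediateField k (AlgebraicClosure k)), IsFOD k f.poly L → fom k f.poly ≤ L :=
  ⟨fun N _ =>
    have := isAlgebraic_rat
    (bound_aux ℚ (AlgebraicClosure ℚ) N).trans_lt (ENat.natCast_lt_top _),
    fun k _ _ N => bound_aux k (AlgebraicClosure k) N,
    fun _ _ _ _ _ f L hL => fom_le_of_isFOD f.poly L hL⟩

end Pool.Agent.Results.MP_db5b97_nt.UniformBound
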